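import Mathlib

/-!
Definitions for transitive permutation groups acting by quasigroup automorphisms.
-/

namespace Pool.Agent.Lib.MP_a0202c_co

/-- `m` is a quasigroup operation on `Ω`: all equations `m a x = b` and `m y a = b` have exactly
one solution. -/
def IsQuasigroup {Ω : Type*} (m : Ω → Ω → Ω) : Prop :=
  (∀ a b, ∃! x, m a x = b) ∧ ∀ a b, ∃! y, m y a = b

/-- The permutation group `G` on `Ω` is realisable: some quasigroup operation on `Ω` has every
element of `G` as an automorphism. -/
def Realisable {Ω : Type*} (G : Subgroup (Equiv.Perm Ω)) : Prop :=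
  ∃ m : Ω → Ω → Ω, IsQuasigroup m ∧ ∀ g ∈ G, ∀ x y, g (m x y) = m (g x) (g y)

/-- The two-point stabiliser `G_{ab}`. -/
def stab₂ (G : Type*) [Group G] {Ω : Type*} [MulAction G Ω] (a b : Ω) : Subgroup G :=
  MulAction.stabilizer G a ⊓ MulAction.stabilizer G b

/-- `L` is a Latin triple system at the subgroup `K`: a set of triples `(x, y, z)` all of whose
two-point stabilisers `G_{xy}`, `G_{xz}`, `G_{yz}` are equal to `K`, invariant under the normaliser
of `K`, and such that every pair with stabiliser `K` occurs exactly once in each of the three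
pairs of positions. -/
structure IsLocalLatin (G : Type*) [Group G] {Ω : Type*} [MulAction G Ω] (K : Subgroup G)
    (L : Set (Ω × Ω × Ω)) : Prop where
  stab : ∀ x y z, (x, y, z) ∈ L → stab₂ G x y = K ∧ stab₂ G x z = K ∧ stab₂ G y z = K
  smul : ∀ n ∈ Subgroup.normalizer (K : Set G), ∀ x y z, (x, y, z) ∈ L →
    (n • x, n • y, n • z) ∈ L
  xy : ∀ x y, stab₂ G x y = K → ∃! z, (x, y, z) ∈ L
  xz : ∀ x z, stab₂ G x z = K → ∃! y, (x, y, z) ∈ L
  yz : ∀ y z, stab₂ G y z = K → ∃! x, (x, y, z) ∈ L

/-- The quotient `N_G(K)/K`. -/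
abbrev NQ {G : Type*} [Group G] (K : Subgroup G) : Type _ :=
  ↥(Subgroup.normalizer (K : Set G)) ⧸ K.subgroupOf (Subgroup.normalizer (K : Set G))

/-- The orbital (orbit on ordered pairs) of the pair `(a, b)`. -/
def orbital (G : Type*) [Group G] {Ω : Type*} [MulAction G Ω] (a b : Ω) :
    MulAction.orbitRel.Quotient G (Ω × Ω) :=
  Quotient.mk _ (a, b)

/-- The group `Q` has a complete mapping: a bijection `θ` for which `x ↦ x θ(x)` is also a
bijection. -/
def HasCompleteMapping (Q : Type*) [Group Q] : Prop :=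
  ∃ θ : Q → Q, Function.Bijective θ ∧ Function.Bijective fun x => x * θ x

end Pool.Agent.Lib.MP_a0202c_co
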