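import Pool.Agent.Lib.MP_a0202c_co.Defs

/-!
The local criterion and the orbital criterion for realisability.
-/

namespace Pool.Agent.Lib.MP_a0202c_co

variable {G : Type*} [Group G] {Ω : Type*} [MulAction G Ω]

/-- Realisability for group actions. -/
def RealisableAction (G : Type*) [Group G] (Ω : Type*) [MulAction G Ω] : Prop :=
  ∃ m : Ω → Ω → Ω, IsQuasigroup m ∧ ∀ (g : G) (x y : Ω), g • m x y = m (g • x) (g • y)

theorem realisable_iff {Ω : Type*} (G : Subgroup (Equiv.Perm Ω)) :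
    Realisable G ↔ RealisableAction G Ω := by
  refine exists_congr fun m => and_congr_right fun _ => ?_
  exact ⟨fun h g x y => h g.1 g.2 x y, fun h g hg x y => h ⟨g, hg⟩ x y⟩

theorem mem_stab₂ {a b : Ω} {g : G} : g ∈ stab₂ G a b ↔ g • a = a ∧ g • b = b := Iff.rfl

/-- Conjugate subgroup. -/
def cj (g : G) (K : Subgroup G) : Subgroup G := K.map (MulAut.conj g).toMonoidHom

theorem mem_cj {g h : G} {K : Subgroup G} : h ∈ cj g K ↔ g⁻¹ * h * g ∈ K := by
  constructor
  · rintro ⟨k, hk, rfl⟩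
    have : g⁻¹ * ((MulAut.conj g).toMonoidHom k) * g = k := by
      simp [MulAut.conj_apply, mul_assoc]
    rw [this]; exact hk
  · intro hk
    refine ⟨_, hk, ?_⟩
    simp [MulAut.conj_apply, mul_assoc]

theorem cj_cj (g h : G) (K : Subgroup G) : cj g (cj h K) = cj (g * h) K := by
  ext x
  simp only [mem_cj, mul_inv_rev, mul_assoc]

theorem cj_one (K : Subgroup G) : cj (1 : G) K = K := by
  ext x
  simp [mem_cj]

theorem cj_inv_of {g : G} {K K' : Subgroup G} (h : cj g K = K') : cj g⁻¹ K' = K := by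
  rw [← h, cj_cj, inv_mul_cancel, cj_one]

theorem cj_eq_iff_mem_normalizer {g : G} {K : Subgroup G} :
    cj g K = K ↔ g ∈ Subgroup.normalizer (K : Set G) := by
  rw [Subgroup.mem_set_normalizer_iff'']
  constructor
  · intro h x
    have : x ∈ cj g K ↔ x ∈ K := by rw [h]
    rw [mem_cj] at this
    exact this.symm
  · intro h
    ext x
    rw [mem_cj]
    exact (h x).symm

theorem stab₂_smul (g : G) (a b : Ω) : stab₂ G (g • a) (g • b) = cj g (stab₂ G a b) := by
  ext x
  rw [mem_cj, mem_stab₂, mem_stab₂]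
  simp only [mul_smul, inv_smul_eq_iff]

theorem stab₂_comm (a b : Ω) : stab₂ G a b = stab₂ G b a := inf_comm _ _

theorem stab₂_smul_of_normalizer {K : Subgroup G} {n : G}
    (hn : n ∈ Subgroup.normalizer (K : Set G)) {a b : Ω} (h : stab₂ G a b = K) :
    stab₂ G (n • a) (n • b) = K := by
  rw [stab₂_smul, h]
  exact cj_eq_iff_mem_normalizer.2 hn

/-- If two pairs with stabiliser `K` differ by `g`, then `g` normalises `K`. -/
theorem mem_normalizer_of_smul {K : Subgroup G} {g : G} {a b : Ω} (h : stab₂ G a b = K)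
    (h' : stab₂ G (g • a) (g • b) = K) : g ∈ Subgroup.normalizer (K : Set G) := by
  rw [← cj_eq_iff_mem_normalizer]
  rw [stab₂_smul, h] at h'
  exact h'

/-- A realising quasigroup has equal two-point stabilisers on its triples. -/
theorem stab_of_op {m : Ω → Ω → Ω} (hm : IsQuasigroup m)
    (hG : ∀ (g : G) (x y : Ω), g • m x y = m (g • x) (g • y)) (x y : Ω) :
    stab₂ G x (m x y) = stab₂ G x y ∧ stab₂ G y (m x y) = stab₂ G x y := by
  constructor
  · ext g
    rw [mem_stab₂, mem_stab₂, hG]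
    constructor
    · rintro ⟨h1, h2⟩
      refine ⟨h1, ?_⟩
      rw [h1] at h2
      obtain ⟨w, _, hw⟩ := hm.1 x (m x y)
      exact (hw _ h2).trans (hw _ rfl).symm
    · rintro ⟨h1, h2⟩
      exact ⟨h1, by rw [h1, h2]⟩
  · ext g
    rw [mem_stab₂, mem_stab₂, hG]
    constructor
    · rintro ⟨h1, h2⟩
      refine ⟨?_, h1⟩
      rw [h1] at h2
      obtain ⟨w, _, hw⟩ := hm.2 y (m x y)
      exact (hw _ h2).trans (hw _ rfl).symm
    · rintro ⟨h1, h2⟩
      exact ⟨h2, by rw [h1, h2]⟩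

/-- Realisable actions have Latin triple systems at every subgroup. -/
theorem RealisableAction.exists_local (h : RealisableAction G Ω) (K : Subgroup G) :
    ∃ L : Set (Ω × Ω × Ω), IsLocalLatin G K L := by
  obtain ⟨m, hm, hG⟩ := h
  have hst := stab_of_op hm hG
  refine ⟨{t | stab₂ G t.1 t.2.1 = K ∧ m t.1 t.2.1 = t.2.2}, ?_, ?_, ?_, ?_, ?_⟩
  · rintro x y z ⟨h1, h2⟩
    simp only at h1 h2
    subst h2
    exact ⟨h1, by rw [(hst x y).1, h1], by rw [(hst x y).2, h1]⟩
  · rintro n hn x y z ⟨h1, h2⟩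
    simp only at h1 h2
    refine ⟨stab₂_smul_of_normalizer hn h1, ?_⟩
    simp only
    rw [← hG, h2]
  · intro x y hxy
    refine ⟨m x y, ⟨hxy, rfl⟩, ?_⟩
    rintro z ⟨_, h2⟩
    exact h2.symm
  · intro x z hxz
    obtain ⟨y, hy, hu⟩ := hm.1 x z
    simp only at hy hu
    refine ⟨y, ⟨?_, hy⟩, ?_⟩
    · simp only
      rw [← (hst x y).1, hy, hxz]
    · rintro y' ⟨_, h2⟩
      exact hu y' h2
  · intro y z hyz
    obtain ⟨x, hx, hu⟩ := hm.2 y z
    simp only at hx hu
    refine ⟨x, ⟨?_, hx⟩, ?_⟩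
    · simp only
      rw [← (hst x y).2, hx, hyz]
    · rintro x' ⟨_, h2⟩
      exact hu x' h2

/-- The conjugacy relation. -/
def cjSetoid (G : Type*) [Group G] : Setoid (Subgroup G) where
  r K K' := ∃ g, cj g K = K'
  iseqv :=
    { refl := fun K => ⟨1, cj_one K⟩
      symm := by
        rintro K _ ⟨g, rfl⟩
        exact ⟨g⁻¹, by rw [cj_cj, inv_mul_cancel, cj_one]⟩
      trans := by
        rintro K _ _ ⟨g, rfl⟩ ⟨h, rfl⟩
        exact ⟨h * g, by rw [cj_cj]⟩ }

/-- **Local criterion.** -/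
theorem realisableAction_of_local
    (h : ∀ a b : Ω, ∃ L : Set (Ω × Ω × Ω), IsLocalLatin G (stab₂ G a b) L) :
    RealisableAction G Ω := by
  classical
  have h' : ∀ K : Subgroup G, ∃ L : Set (Ω × Ω × Ω), IsLocalLatin G K L := by
    intro K
    by_cases hK : ∃ a b : Ω, stab₂ G a b = K
    · obtain ⟨a, b, rfl⟩ := hK
      exact h a b
    · push Not at hK
      refine ⟨∅, ?_, ?_, ?_, ?_, ?_⟩
      · intro x y z h; exact h.elim
      · intro n _ x y z h; exact h.elim
      · intro x y hxy; exact absurd hxy (hK x y)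
      · intro x y hxy; exact absurd hxy (hK x y)
      · intro x y hxy; exact absurd hxy (hK x y)
  choose L0 hL0 using h'
  let rep : Subgroup G → Subgroup G := fun K => Quotient.out (Quotient.mk (cjSetoid G) K)
  have hrep : ∀ K, ∃ g, cj g (rep K) = K := fun K =>
    Quotient.exact (Quotient.out_eq (Quotient.mk (cjSetoid G) K))
  choose γ hγ using hrep
  have hrepcj : ∀ g K, rep (cj g K) = rep K := by
    intro g K
    have : Quotient.mk (cjSetoid G) (cj g K) = Quotient.mk (cjSetoid G) K :=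
      (Quotient.sound ⟨g, rfl⟩ : Quotient.mk (cjSetoid G) K = _).symm
    simp only [rep, this]
  let L : Subgroup G → Set (Ω × Ω × Ω) := fun K =>
    {t | ((γ K)⁻¹ • t.1, (γ K)⁻¹ • t.2.1, (γ K)⁻¹ • t.2.2) ∈ L0 (rep K)}
  have hLmem : ∀ K x y z, (x, y, z) ∈ L K ↔
      ((γ K)⁻¹ • x, (γ K)⁻¹ • y, (γ K)⁻¹ • z) ∈ L0 (rep K) := fun K x y z => Iff.rfl
  have hcj : ∀ h K x y z, (x, y, z) ∈ L K → (h • x, h • y, h • z) ∈ L (cj h K) := by
    intro h K x y z ht
    rw [hLmem] at ht ⊢
    rw [hrepcj]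
    have hn : (γ (cj h K))⁻¹ * h * γ K ∈ Subgroup.normalizer (rep K : Set G) := by
      rw [← cj_eq_iff_mem_normalizer, ← cj_cj, hγ, ← cj_cj]
      have h1 := hγ (cj h K)
      rw [hrepcj] at h1
      exact cj_inv_of h1
    have := (hL0 (rep K)).smul _ hn _ _ _ ht
    simpa [mul_smul] using this
  have hstabγ : ∀ (K : Subgroup G) (x y : Ω), stab₂ G x y = K → stab₂ G ((γ K)⁻¹ • x) ((γ K)⁻¹ • y) = rep K := by
    intro K x y hxy
    rw [stab₂_smul, hxy]
    exact cj_inv_of (hγ K)
  have hxy : ∀ (K : Subgroup G) (x y : Ω), stab₂ G x y = K → ∃! z, (x, y, z) ∈ L K := by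
    intro K x y hK
    obtain ⟨z, hz, hu⟩ := (hL0 (rep K)).xy _ _ (hstabγ K x y hK)
    refine ⟨γ K • z, ?_, ?_⟩
    · simp only [hLmem, inv_smul_smul]; exact hz
    · intro z' hz'
      rw [← hu _ hz', smul_inv_smul]
  have hxz : ∀ (K : Subgroup G) (x z : Ω), stab₂ G x z = K → ∃! y, (x, y, z) ∈ L K := by
    intro K x z hK
    obtain ⟨y, hy, hu⟩ := (hL0 (rep K)).xz _ _ (hstabγ K x z hK)
    refine ⟨γ K • y, ?_, ?_⟩
    · simp only [hLmem, inv_smul_smul]; exact hy
    · intro y' hy'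
      rw [← hu _ hy', smul_inv_smul]
  have hyz : ∀ (K : Subgroup G) (y z : Ω), stab₂ G y z = K → ∃! x, (x, y, z) ∈ L K := by
    intro K y z hK
    obtain ⟨x, hx, hu⟩ := (hL0 (rep K)).yz _ _ (hstabγ K y z hK)
    refine ⟨γ K • x, ?_, ?_⟩
    · simp only [hLmem, inv_smul_smul]; exact hx
    · intro x' hx'
      rw [← hu _ hx', smul_inv_smul]
  have hstab : ∀ (K : Subgroup G) (x y z : Ω), (x, y, z) ∈ L K →
      stab₂ G x y = K ∧ stab₂ G x z = K ∧ stab₂ G y z = K := by
    intro K x y z ht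
    obtain ⟨h1, h2, h3⟩ := (hL0 (rep K)).stab _ _ _ ht
    have key : ∀ u v : Ω, stab₂ G ((γ K)⁻¹ • u) ((γ K)⁻¹ • v) = rep K → stab₂ G u v = K := by
      intro u v huv
      have := stab₂_smul (γ K) ((γ K)⁻¹ • u) ((γ K)⁻¹ • v)
      rw [smul_inv_smul, smul_inv_smul, huv, hγ] at this
      exact this
    exact ⟨key _ _ h1, key _ _ h2, key _ _ h3⟩
  have hm : ∀ x y, ∃ z, (x, y, z) ∈ L (stab₂ G x y) := fun x y => (hxy _ x y rfl).exists
  choose m hm using hm
  have hmu : ∀ K x y z, (x, y, z) ∈ L K → m x y = z := by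
    intro K x y z ht
    have h1 := (hstab K x y z ht).1
    subst h1
    exact (hxy _ x y rfl).unique (hm x y) ht
  refine ⟨m, ⟨?_, ?_⟩, ?_⟩
  · intro a b
    obtain ⟨y, hy, hu⟩ := hxz _ a b rfl
    refine ⟨y, hmu _ _ _ _ hy, ?_⟩
    intro y' hy'
    apply hu
    have h1 := hm a y'
    rw [hy'] at h1
    have h2 := (hstab _ _ _ _ h1).2.1
    rw [← h2] at h1
    exact h1
  · intro a b
    obtain ⟨x, hx, hu⟩ := hyz _ a b rfl
    refine ⟨x, hmu _ _ _ _ hx, ?_⟩
    intro x' hx'
    apply hu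
    have h1 := hm x' a
    rw [hx'] at h1
    have h2 := (hstab _ _ _ _ h1).2.2
    rw [← h2] at h1
    exact h1
  · intro g x y
    exact (hmu _ _ _ _ (hcj g _ _ _ _ (hm x y))).symm

theorem realisableAction_iff_local : RealisableAction G Ω ↔
    ∀ a b : Ω, ∃ L : Set (Ω × Ω × Ω), IsLocalLatin G (stab₂ G a b) L :=
  ⟨fun h _ _ => h.exists_local _, realisableAction_of_local⟩

theorem orbital_eq_iff {a b a' b' : Ω} :
    orbital G a b = orbital G a' b' ↔ ∃ g : G, g • a' = a ∧ g • b' = b := by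
  rw [orbital, orbital]
  constructor
  · intro h
    obtain ⟨g, hg⟩ := (Quotient.exact h : MulAction.orbitRel G (Ω × Ω) (a, b) (a', b'))
    simp only at hg
    exact ⟨g, congrArg Prod.fst hg, congrArg Prod.snd hg⟩
  · rintro ⟨g, rfl, rfl⟩
    exact Quotient.sound ⟨g, rfl⟩

theorem orbital_smul (g : G) (a b : Ω) : orbital G (g • a) (g • b) = orbital G a b :=
  orbital_eq_iff.2 ⟨g, rfl, rfl⟩

theorem exists_orbital (X : MulAction.orbitRel.Quotient G (Ω × Ω)) :
    ∃ a b, orbital G a b = X := by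
  obtain ⟨⟨a, b⟩, rfl⟩ := Quotient.exists_rep X
  exact ⟨a, b, rfl⟩

/-- **Orbital criterion.** -/
theorem realisableAction_iff_orbital : RealisableAction G Ω ↔
    ∃ σ τ : Equiv.Perm (MulAction.orbitRel.Quotient G (Ω × Ω)), ∀ X, ∃ a b c : Ω,
      orbital G a b = X ∧ orbital G a c = σ X ∧ orbital G b c = τ X ∧
      stab₂ G a c = stab₂ G a b ∧ stab₂ G b c = stab₂ G a b := by
  constructor
  · rintro ⟨m, hm, hG⟩
    have hst := stab_of_op hm hG
    let s : MulAction.orbitRel.Quotient G (Ω × Ω) → MulAction.orbitRel.Quotient G (Ω × Ω) :=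
      Quotient.lift (fun p : Ω × Ω => orbital G p.1 (m p.1 p.2)) (by
        rintro ⟨a, b⟩ ⟨a', b'⟩ h
        obtain ⟨g, hg⟩ := h
        have h1 : g • a' = a := congrArg Prod.fst hg
        have h2 : g • b' = b := congrArg Prod.snd hg
        subst h1 h2
        simp only
        rw [← hG, orbital_smul])
    let t : MulAction.orbitRel.Quotient G (Ω × Ω) → MulAction.orbitRel.Quotient G (Ω × Ω) :=
      Quotient.lift (fun p : Ω × Ω => orbital G p.2 (m p.1 p.2)) (by
        rintro ⟨a, b⟩ ⟨a', b'⟩ h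
        obtain ⟨g, hg⟩ := h
        have h1 : g • a' = a := congrArg Prod.fst hg
        have h2 : g • b' = b := congrArg Prod.snd hg
        subst h1 h2
        simp only
        rw [← hG, orbital_smul])
    have hs : ∀ a b, s (orbital G a b) = orbital G a (m a b) := fun a b => rfl
    have ht : ∀ a b, t (orbital G a b) = orbital G b (m a b) := fun a b => rfl
    have hsb : Function.Bijective s := by
      constructor
      · intro X X' h
        obtain ⟨a, b, rfl⟩ := exists_orbital X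
        obtain ⟨a', b', rfl⟩ := exists_orbital X'
        rw [hs, hs, orbital_eq_iff] at h
        obtain ⟨g, h1, h2⟩ := h
        rw [hG, h1] at h2
        rw [orbital_eq_iff]
        exact ⟨g, h1, (hm.1 a (m a b)).unique h2 rfl⟩
      · intro X
        obtain ⟨a, c, rfl⟩ := exists_orbital X
        obtain ⟨b, hb, _⟩ := hm.1 a c
        exact ⟨orbital G a b, by rw [hs]; exact congrArg _ hb⟩
    have htb : Function.Bijective t := by
      constructor
      · intro X X' h
        obtain ⟨a, b, rfl⟩ := exists_orbital X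
        obtain ⟨a', b', rfl⟩ := exists_orbital X'
        rw [ht, ht, orbital_eq_iff] at h
        obtain ⟨g, h1, h2⟩ := h
        rw [hG, h1] at h2
        rw [orbital_eq_iff]
        exact ⟨g, (hm.2 b (m a b)).unique h2 rfl, h1⟩
      · intro X
        obtain ⟨b, c, rfl⟩ := exists_orbital X
        obtain ⟨a, ha, _⟩ := hm.2 b c
        exact ⟨orbital G a b, by rw [ht]; exact congrArg _ ha⟩
    refine ⟨Equiv.ofBijective s hsb, Equiv.ofBijective t htb, fun X => ?_⟩
    obtain ⟨a, b, rfl⟩ := exists_orbital X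
    exact ⟨a, b, m a b, rfl, rfl, rfl, (hst a b).1, (hst a b).2⟩
  · rintro ⟨σ, τ, h⟩
    choose a b c hab hac hbc hst1 hst2 using h
    refine realisableAction_of_local fun x0 y0 => ?_
    generalize stab₂ G x0 y0 = K
    refine ⟨{t | stab₂ G t.1 t.2.1 = K ∧ ∃ (X : _) (g : G), t.1 = g • a X ∧ t.2.1 = g • b X ∧
      t.2.2 = g • c X}, ?_, ?_, ?_, ?_, ?_⟩
    · rintro x y z ⟨h1, X, g, h2, h3, h4⟩
      simp only at h1 h2 h3 h4
      subst h2 h3 h4
      rw [stab₂_smul] at h1
      exact ⟨by rw [stab₂_smul, h1], by rw [stab₂_smul, hst1, h1], by rw [stab₂_smul, hst2, h1]⟩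
    · rintro n hn x y z ⟨h1, X, g, h2, h3, h4⟩
      simp only at h1 h2 h3 h4
      exact ⟨stab₂_smul_of_normalizer hn h1, X, n * g, by simp only; rw [h2, mul_smul],
        by simp only; rw [h3, mul_smul], by simp only; rw [h4, mul_smul]⟩
    · intro x y hxy
      obtain ⟨g, hg1, hg2⟩ := orbital_eq_iff.1 (hab (orbital G x y)).symm
      refine ⟨g • c (orbital G x y), ⟨hxy, _, g, hg1.symm, hg2.symm, rfl⟩, ?_⟩
      rintro z ⟨_, X, g', h1, h2, h3⟩
      simp only at h1 h2 h3
      have hX : orbital G x y = X := by rw [h1, h2, orbital_smul, hab]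
      rw [hX] at hg1 hg2 ⊢
      rw [h3]
      have hmem : g⁻¹ * g' ∈ stab₂ G (a X) (c X) := by
        rw [hst1, mem_stab₂]
        rw [mul_smul, mul_smul, ← h1, ← h2, ← hg1, ← hg2, inv_smul_smul, inv_smul_smul]
        exact ⟨rfl, rfl⟩
      have := (mem_stab₂.1 hmem).2
      rw [mul_smul, inv_smul_eq_iff] at this
      exact this
    · intro x z hxz
      set X := σ.symm (orbital G x z) with hXdef
      have hσ : orbital G (a X) (c X) = orbital G x z := by
        rw [hac, hXdef, Equiv.apply_symm_apply]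
      obtain ⟨g, hg1, hg2⟩ := orbital_eq_iff.1 hσ.symm
      refine ⟨g • b X, ⟨?_, X, g, hg1.symm, rfl, hg2.symm⟩, ?_⟩
      · simp only
        rw [← hg1, stab₂_smul, ← hst1, ← stab₂_smul, hg1, hg2, hxz]
      rintro y ⟨_, X', g', h1, h2, h3⟩
      simp only at h1 h2 h3
      have hX : X' = X := by
        apply σ.injective
        rw [← hac, ← hac, hσ, h1, h3, orbital_smul]
      rw [hX] at h1 h2 h3
      rw [h2]
      have hmem : g⁻¹ * g' ∈ stab₂ G (a X) (b X) := by
        rw [← hst1, mem_stab₂]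
        rw [mul_smul, mul_smul, ← h1, ← h3, ← hg1, ← hg2, inv_smul_smul, inv_smul_smul]
        exact ⟨rfl, rfl⟩
      have := (mem_stab₂.1 hmem).2
      rw [mul_smul, inv_smul_eq_iff] at this
      exact this
    · intro y z hyz
      set X := τ.symm (orbital G y z) with hXdef
      have hτ : orbital G (b X) (c X) = orbital G y z := by
        rw [hbc, hXdef, Equiv.apply_symm_apply]
      obtain ⟨g, hg1, hg2⟩ := orbital_eq_iff.1 hτ.symm
      refine ⟨g • a X, ⟨?_, X, g, rfl, hg1.symm, hg2.symm⟩, ?_⟩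
      · simp only
        rw [← hg1, stab₂_smul, ← hst2, ← stab₂_smul, hg1, hg2, hyz]
      rintro x ⟨_, X', g', h1, h2, h3⟩
      simp only at h1 h2 h3
      have hX : X' = X := by
        apply τ.injective
        rw [← hbc, ← hbc, hτ, h2, h3, orbital_smul]
      rw [hX] at h1 h2 h3
      rw [h1]
      have hmem : g⁻¹ * g' ∈ stab₂ G (a X) (b X) := by
        rw [← hst2, mem_stab₂]
        rw [mul_smul, mul_smul, ← h2, ← h3, ← hg1, ← hg2, inv_smul_smul, inv_smul_smul]
        exact ⟨rfl, rfl⟩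
      have := (mem_stab₂.1 hmem).1
      rw [mul_smul, inv_smul_eq_iff] at this
      exact this

end Pool.Agent.Lib.MP_a0202c_co
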