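import Pool.Agent.Lib.MP_a0202c_co.Regular

/-!
The main theorems on realisable permutation groups.
-/

open Cardinal
open scoped Pointwise

universe u

namespace Pool.Agent.Lib.MP_a0202c_co

variable {G : Type u} [Group G] {Ω : Type u} [MulAction G Ω]

theorem RealisableAction.exists_triangle (h : RealisableAction G Ω) (a b : Ω) :
    ∃ c, stab₂ G a c = stab₂ G a b ∧ stab₂ G b c = stab₂ G a b := by
  obtain ⟨m, hm, hG⟩ := h
  exact ⟨m a b, stab_of_op hm hG a b⟩

/-- Countable degree, finite suborbits. -/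
theorem realisableAction_iff_of_countable [Countable Ω]
    (hsub : ∀ x y : Ω, (MulAction.orbit (MulAction.stabilizer G x) y).Finite) :
    RealisableAction G Ω ↔ ∀ a b : Ω,
      (Infinite (NQ (stab₂ G a b)) →
        ∃ c, stab₂ G a c = stab₂ G a b ∧ stab₂ G b c = stab₂ G a b) ∧
      (Finite (NQ (stab₂ G a b)) →
        ∃ L : Set (Ω × Ω × Ω), IsLocalLatin G (stab₂ G a b) L) := by
  constructor
  · intro h a b
    exact ⟨fun _ => h.exists_triangle a b, fun _ => h.exists_local _⟩
  · intro h
    refine realisableAction_of_local fun a b => ?_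
    rcases finite_or_infinite (NQ (stab₂ G a b)) with hf | hi
    · exact (h a b).2 hf
    · refine exists_isLocalLatin_of_large hsub _ ?_ ?_
      · exact (mk_le_aleph0).trans (aleph0_le_mk _)
      · intro a' b' hab
        have h1 : Infinite (NQ (stab₂ G a' b')) := by rw [hab]; exact hi
        have h2 := (h a' b').1 h1
        rw [hab] at h2
        exact h2

theorem finite_orbit_of_finite_stabilizer (hfin : ∀ a : Ω, Finite (MulAction.stabilizer G a))
    (x y : Ω) : (MulAction.orbit (MulAction.stabilizer G x) y).Finite := by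
  have := hfin x
  exact Set.finite_range _

theorem out_smul {K : Subgroup G} (n : ↥(Subgroup.normalizer (K : Set G))) {x : Ω}
    (hx : x ∈ fixSet K Ω) : ((QuotientGroup.mk n : NQ K).out : G) • x = (n : G) • x := by
  have h4 : (QuotientGroup.mk (QuotientGroup.mk n : NQ K).out : NQ K) =
      QuotientGroup.mk n := QuotientGroup.out_eq' _
  rw [QuotientGroup.eq] at h4
  have h5 := hx _ h4
  change (((QuotientGroup.mk n : NQ K).out : G)⁻¹ * (n : G)) • x = x at h5
  rw [mul_smul, inv_smul_eq_iff] at h5
  exact h5.symm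

/-- In a transitive group with finite point stabilisers, the fixed points of `K` are controlled by
the normaliser of `K`. -/
theorem mk_fixSet_le (htr : ∀ x y : Ω, ∃ g : G, g • x = y)
    (hfin : ∀ a : Ω, Finite (MulAction.stabilizer G a)) (K : Subgroup G) (a : Ω) :
    ∃ c : Cardinal.{u}, c < ℵ₀ ∧ #(fixSet K Ω) ≤ c * #(NQ K) := by
  classical
  have hS : {J : Subgroup G | J ≤ MulAction.stabilizer G a}.Finite := by
    have h1 := finite_between (G := G) a a (finite_orbit_of_finite_stabilizer hfin a a)
    have hf := hfin a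
    have h2 : Finite (Subgroup (MulAction.stabilizer G a)) := inferInstance
    refine Set.Finite.subset (Set.finite_range
      (fun J : Subgroup (MulAction.stabilizer G a) => J.map (MulAction.stabilizer G a).subtype)) ?_
    intro J hJ
    refine ⟨J.subgroupOf (MulAction.stabilizer G a), ?_⟩
    simp only
    rw [Subgroup.subgroupOf_map_subtype]
    exact inf_eq_left.2 hJ
  choose γ hγ using fun x : Ω => htr a x
  have hJ : ∀ x : fixSet K Ω, cj (γ x.1)⁻¹ K ∈ {J : Subgroup G | J ≤ MulAction.stabilizer G a} := by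
    intro x g hg
    rw [mem_cj, inv_inv] at hg
    have h1 := x.2 _ hg
    rw [MulAction.mem_stabilizer_iff]
    have h0 : (γ x.1)⁻¹ • x.1 = a := inv_smul_eq_iff.2 (hγ x.1).symm
    rw [mul_smul, h0, mul_smul] at h1
    exact (inv_smul_eq_iff.2 h1.symm).symm.trans h0
  let f : fixSet K Ω → {J : Subgroup G | J ≤ MulAction.stabilizer G a} := fun x => ⟨_, hJ x⟩
  refine ⟨#{J : Subgroup G | J ≤ MulAction.stabilizer G a}, lt_aleph0_iff_set_finite.2 hS, ?_⟩
  refine mk_le_mk_mul_of_mk_preimage_le f fun J => ?_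
  by_cases hne : (f ⁻¹' {J}).Nonempty
  · obtain ⟨x0, hx0⟩ := hne
    -- the fibre is contained in an orbit of the normaliser
    have hn : ∀ x : f ⁻¹' {J}, ∃ q : NQ K, (q.out : G) • x0.1 = x.1.1 := by
      intro x
      have h1 : cj (γ x.1.1)⁻¹ K = cj (γ x0.1)⁻¹ K := by
        have h2 : f x.1 = f x0 := x.2.trans hx0.symm
        exact congrArg Subtype.val h2
      have h3 : γ x.1.1 * (γ x0.1)⁻¹ ∈ Subgroup.normalizer (K : Set G) := by
        rw [← cj_eq_iff_mem_normalizer, ← cj_cj, ← h1, cj_cj, mul_inv_cancel, cj_one]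
      refine ⟨QuotientGroup.mk ⟨_, h3⟩, ?_⟩
      rw [out_smul _ x0.2]
      change (γ x.1.1 * (γ x0.1)⁻¹) • x0.1 = x.1.1
      have h0 : (γ x0.1)⁻¹ • x0.1 = a := inv_smul_eq_iff.2 (hγ x0.1).symm
      rw [mul_smul, h0, hγ]
    choose q hq using hn
    refine mk_le_of_injective (f := q) ?_
    intro x y hxy
    have h1 := hq x
    rw [hxy, hq y] at h1
    exact Subtype.ext (Subtype.ext h1.symm)
  · rw [Set.not_nonempty_iff_eq_empty] at hne
    rw [hne]
    simp

theorem infinite_NQ_of_infinite_fixSet (htr : ∀ x y : Ω, ∃ g : G, g • x = y)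
    (hfin : ∀ a : Ω, Finite (MulAction.stabilizer G a)) (K : Subgroup G)
    (h : (fixSet K Ω).Infinite) : Infinite (NQ K) ∧ #(fixSet K Ω) ≤ #(NQ K) := by
  obtain ⟨a, ha⟩ := h.nonempty
  obtain ⟨c, hc, hle⟩ := mk_fixSet_le htr hfin K a
  have h1 : ℵ₀ ≤ #(fixSet K Ω) := infinite_iff.1 (Set.infinite_coe_iff.2 h)
  have h2 : ℵ₀ ≤ #(NQ K) := by
    by_contra hcon
    push Not at hcon
    exact absurd (h1.trans hle) (not_le.2 (mul_lt_aleph0 hc hcon))
  exact ⟨infinite_iff.2 h2, hle.trans (mul_le_of_le h2 (hc.le.trans h2) le_rfl)⟩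

theorem finite_NQ_of_finite_fixSet {K : Subgroup G} {a b : Ω} (hab : stab₂ G a b = K)
    (h : (fixSet K Ω).Finite) : Finite (NQ K) := by
  have h1 := h.to_subtype
  have hmem : ∀ (n : ↥(Subgroup.normalizer (K : Set G))) (x : Ω), x ∈ fixSet K Ω →
      (n : G) • x ∈ fixSet K Ω := by
    intro n x hx k hk
    have h3 := hx _ ((Subgroup.mem_set_normalizer_iff''.1 n.2 k).1 hk)
    rw [mul_assoc, mul_smul, inv_smul_eq_iff, mul_smul] at h3
    exact h3
  refine Finite.of_injective (β := fixSet K Ω × fixSet K Ω)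
    (fun q : NQ K => (⟨(q.out : G) • a, hmem _ _ (mem_fixSet_of_stab hab).1⟩,
      ⟨(q.out : G) • b, hmem _ _ (mem_fixSet_of_stab hab).2⟩)) ?_
  intro q q' hqq
  have h2 : (q.out : G) • a = (q'.out : G) • a := congrArg (fun p => p.1.1) hqq
  have h3 : (q.out : G) • b = (q'.out : G) • b := congrArg (fun p => p.2.1) hqq
  have hm : (q.out : G)⁻¹ * (q'.out : G) ∈ K := by
    refine hab.le ?_
    rw [mem_stab₂, mul_smul, mul_smul, ← h2, ← h3, inv_smul_smul, inv_smul_smul]
    exact ⟨rfl, rfl⟩
  have h4 : (QuotientGroup.mk q.out : NQ K) = QuotientGroup.mk q'.out := QuotientGroup.eq.2 hm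
  rwa [QuotientGroup.out_eq', QuotientGroup.out_eq'] at h4

/-- In a transitive group with finite point stabilisers, a point fixed by `G_a` has stabiliser
`G_a`. -/
theorem stabilizer_eq_of_mem_fixSet (htr : ∀ x y : Ω, ∃ g : G, g • x = y)
    (hfin : ∀ a : Ω, Finite (MulAction.stabilizer G a)) (a : Ω) :
    ∀ x ∈ fixSet (MulAction.stabilizer G a) Ω,
      MulAction.stabilizer G x = MulAction.stabilizer G a := by
  intro x hx
  have hle : MulAction.stabilizer G a ≤ MulAction.stabilizer G x := fun g hg => hx g hg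
  obtain ⟨g, rfl⟩ := htr a x
  have hf := hfin (g • a)
  have hcard : Nat.card (MulAction.stabilizer G (g • a)) = Nat.card (MulAction.stabilizer G a) := by
    rw [MulAction.stabilizer_smul_eq_stabilizer_map_conj]
    exact Nat.card_congr (Subgroup.equivMapOfInjective _ _
      (MulAut.conj g).injective).toEquiv.symm
  exact (Subgroup.eq_of_le_of_card_ge hle hcard.le).symm

/-- **Transitive groups with finite point stabilisers.** -/
theorem realisableAction_iff_of_finite_stabilizer (htr : ∀ x y : Ω, ∃ g : G, g • x = y)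
    (hfin : ∀ a : Ω, Finite (MulAction.stabilizer G a)) :
    RealisableAction G Ω ↔
      (∀ a : Ω, Finite (NQ (MulAction.stabilizer G a)) →
        HasCompleteMapping (NQ (MulAction.stabilizer G a))) ∧
      ∀ a b : Ω, MulAction.stabilizer G a ≠ MulAction.stabilizer G b →
        ((fixSet (stab₂ G a b) Ω).Infinite →
          ∃ c, stab₂ G a c = stab₂ G a b ∧ stab₂ G b c = stab₂ G a b) ∧
        ((fixSet (stab₂ G a b) Ω).Finite →
          ∃ L : Set (Ω × Ω × Ω), IsLocalLatin G (stab₂ G a b) L) := by
  have hsub := finite_orbit_of_finite_stabilizer hfin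
  constructor
  · intro h
    refine ⟨fun a _ => ?_, fun a b _ => ⟨fun _ => h.exists_triangle a b,
      fun _ => h.exists_local _⟩⟩
    exact (isLocalLatin_stabilizer_iff rfl htr
      (stabilizer_eq_of_mem_fixSet htr hfin a)).1 (h.exists_local _)
  · rintro ⟨h1, h2⟩
    have htri : ∀ a b : Ω, (fixSet (stab₂ G a b) Ω).Infinite →
        ∃ c, stab₂ G a c = stab₂ G a b ∧ stab₂ G b c = stab₂ G a b := by
      intro a b hinf
      by_cases hab : MulAction.stabilizer G a = MulAction.stabilizer G b
      · exact ⟨a, by rw [stab₂, stab₂, hab], by rw [stab₂, stab₂, hab]⟩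
      · exact (h2 a b hab).1 hinf
    refine realisableAction_of_local fun a b => ?_
    by_cases hinf : (fixSet (stab₂ G a b) Ω).Infinite
    · obtain ⟨hi, hle⟩ := infinite_NQ_of_infinite_fixSet htr hfin _ hinf
      refine exists_isLocalLatin_of_large hsub _ hle fun a' b' hab => ?_
      rw [← hab] at hinf ⊢
      exact htri a' b' hinf
    · rw [Set.not_infinite] at hinf
      by_cases hab : MulAction.stabilizer G a = MulAction.stabilizer G b
      · have hK : stab₂ G a b = MulAction.stabilizer G a := by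
          rw [stab₂, ← hab, inf_idem]
        have hf := finite_NQ_of_finite_fixSet rfl hinf
        rw [hK] at hf ⊢
        exact (isLocalLatin_stabilizer_iff rfl htr
          (stabilizer_eq_of_mem_fixSet htr hfin a)).2 (h1 a hf)
      · exact (h2 a b hab).2 hinf

/-- **TI point stabilisers.** -/
theorem realisableAction_iff_of_TI [Infinite Ω] (htr : ∀ x y : Ω, ∃ g : G, g • x = y)
    (hfin : ∀ a : Ω, Finite (MulAction.stabilizer G a))
    (hne : ∀ a : Ω, MulAction.stabilizer G a ≠ ⊥)
    (hTI : ∀ a b : Ω, MulAction.stabilizer G a ≠ MulAction.stabilizer G b →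
      MulAction.stabilizer G a ⊓ MulAction.stabilizer G b = ⊥) :
    RealisableAction G Ω ↔
      (Set.range fun a : Ω => MulAction.stabilizer G a).ncard ≠ 2 ∧
      ∀ a : Ω, Finite (NQ (MulAction.stabilizer G a)) →
        HasCompleteMapping (NQ (MulAction.stabilizer G a)) := by
  rw [realisableAction_iff_of_finite_stabilizer htr hfin, and_comm]
  refine and_congr_left fun _ => ?_
  have hfix : ∀ a b : Ω, MulAction.stabilizer G a ≠ MulAction.stabilizer G b →
      stab₂ G a b = ⊥ ∧ (fixSet (stab₂ G a b) Ω).Infinite := by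
    intro a b hab
    have h1 : stab₂ G a b = ⊥ := hTI a b hab
    refine ⟨h1, ?_⟩
    rw [h1]
    have : fixSet (⊥ : Subgroup G) Ω = Set.univ := by
      refine Set.eq_univ_of_forall fun x k hk => ?_
      rw [Subgroup.mem_bot.1 hk, one_smul]
    rw [this]
    exact Set.infinite_univ
  have hiff : ∀ a c : Ω, stab₂ G a c = ⊥ ↔
      MulAction.stabilizer G a ≠ MulAction.stabilizer G c := by
    intro a c
    constructor
    · intro h1 h2
      rw [stab₂, ← h2, inf_idem] at h1
      exact hne a h1
    · exact hTI a c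
  constructor
  · intro h h2
    obtain ⟨S, T, hST, hr⟩ := Set.ncard_eq_two.1 h2
    obtain ⟨a, ha⟩ : S ∈ Set.range fun a : Ω => MulAction.stabilizer G a := by
      rw [hr]; simp
    obtain ⟨b, hb⟩ : T ∈ Set.range fun a : Ω => MulAction.stabilizer G a := by
      rw [hr]; simp
    simp only at ha hb
    have hab : MulAction.stabilizer G a ≠ MulAction.stabilizer G b := by
      rw [ha, hb]; exact hST
    obtain ⟨c, hc1, hc2⟩ := (h a b hab).1 (hfix a b hab).2
    rw [(hfix a b hab).1, hiff] at hc1 hc2
    have hc : MulAction.stabilizer G c ∈ ({S, T} : Set (Subgroup G)) := by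
      rw [← hr]; exact ⟨c, rfl⟩
    rcases hc with hc | hc
    · exact hc1 (ha.trans hc.symm)
    · exact hc2 (hb.trans hc.symm)
  · intro h2 a b hab
    refine ⟨fun _ => ?_, fun hf => absurd (hfix a b hab).2 (Set.not_infinite.2 hf)⟩
    by_contra hcon
    push Not at hcon
    apply h2
    rw [Set.ncard_eq_two]
    refine ⟨_, _, hab, ?_⟩
    apply Set.Subset.antisymm
    · rintro _ ⟨c, rfl⟩
      by_cases hc : MulAction.stabilizer G a = MulAction.stabilizer G c
      · exact .inl hc.symm
      · right
        have h3 := hcon c (((hiff a c).2 hc).trans (hfix a b hab).1.symm)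
        rw [(hfix a b hab).1, Ne, hiff, not_not] at h3
        exact h3.symm
    · rintro _ (rfl | rfl)
      · exact ⟨a, rfl⟩
      · exact ⟨b, rfl⟩

/-- **The infinite criterion.** -/
theorem realisable_iff_main {Ω : Type u} (G : Subgroup (Equiv.Perm Ω))
    (h : (Countable Ω ∧ ∀ a b : Ω, (MulAction.orbit (MulAction.stabilizer G a) b).Finite) ∨
      (MulAction.IsPretransitive G Ω ∧ ∀ a : Ω, Finite (MulAction.stabilizer G a))) :
    Realisable G ↔ ∀ a b : Ω,
      (Infinite (NQ (stab₂ G a b)) →
        ∃ c, stab₂ G a c = stab₂ G a b ∧ stab₂ G b c = stab₂ G a b) ∧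
      (Finite (NQ (stab₂ G a b)) →
        ∃ L : Set (Ω × Ω × Ω), IsLocalLatin G (stab₂ G a b) L) := by
  rw [realisable_iff]
  rcases h with ⟨h1, h2⟩ | ⟨h1, h2⟩
  · exact realisableAction_iff_of_countable h2
  · have htr : ∀ x y : Ω, ∃ g : G, g • x = y := fun x y => MulAction.exists_smul_eq G x y
    constructor
    · intro h a b
      exact ⟨fun _ => h.exists_triangle a b, fun _ => h.exists_local _⟩
    · intro h
      have hsub := finite_orbit_of_finite_stabilizer h2
      refine realisableAction_of_local fun a b => ?_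
      rcases finite_or_infinite (NQ (stab₂ G a b)) with hf | hi
      · exact (h a b).2 hf
      · have hinf : (fixSet (stab₂ G a b) Ω).Infinite := by
          intro hfin
          have := finite_NQ_of_finite_fixSet rfl hfin
          exact not_finite (NQ (stab₂ G a b))
        obtain ⟨-, hle⟩ := infinite_NQ_of_infinite_fixSet htr h2 _ hinf
        refine exists_isLocalLatin_of_large hsub _ hle fun a' b' hab => ?_
        have h3 : Infinite (NQ (stab₂ G a' b')) := by rw [hab]; exact hi
        have h4 := (h a' b').1 h3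
        rw [hab] at h4
        exact h4

end Pool.Agent.Lib.MP_a0202c_co
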