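import Mathlib

/-!
A transfinite three-dimensional matching lemma.
-/

open Cardinal

universe u v

namespace Pool.Agent.Lib.MP_a0202c_co

/-- **Transfinite matching.** Let `T` be a set of triples with three projections to an infinite
set `X`. If every element of `X` can, at every position, be extended to a triple whose other two
entries avoid a given set of cardinality smaller than `X`, then some set of triples projects
bijectively onto `X` at each of the three positions. -/
theorem exists_matching {T : Type v} {X : Type u} [Infinite X] (pr : Fin 3 → T → X)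
    (h : ∀ (p : Fin 3) (x : X) (U : Set X), #U < #X →
      ∃ t, pr p t = x ∧ ∀ q, q ≠ p → pr q t ∉ U) :
    ∃ M : Set T, ∀ p x, ∃! t, t ∈ M ∧ pr p t = x := by
  classical
  obtain ⟨_, _, hord⟩ := exists_ord_eq_type_lt (X × Fin 3)
  have hinf : ℵ₀ ≤ #X := aleph0_le_mk X
  have hcard : #(X × Fin 3) = #X := by
    rw [mk_prod, mk_fin]
    simp only [lift_natCast, lift_uzero]
    exact mul_eq_left hinf ((natCast_lt_aleph0 (n := 3)).le.trans hinf) (by norm_num)
  have hlt : ∀ r : X × Fin 3, #(Set.Iio r) < #X := by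
    intro r
    rw [← hcard]
    exact mk_Iio_lt r hord
  let Φ : (r : X × Fin 3) → ((r' : X × Fin 3) → r' < r → T) → T → Prop := fun r prev y =>
    pr r.2 y = r.1 ∧ ((∃ r', ∃ (hr : r' < r), y = prev r' hr) ∨
      ∀ r' (hr : r' < r) q, pr q y ≠ pr q (prev r' hr))
  have hex : ∀ r prev, ∃ y, Φ r prev y := by
    rintro ⟨x, p⟩ prev
    by_cases hcase : ∃ r', ∃ (hr : r' < (x, p)), pr p (prev r' hr) = x
    · obtain ⟨r', hr, hx⟩ := hcase
      exact ⟨prev r' hr, hx, .inl ⟨r', hr, rfl⟩⟩
    · push Not at hcase
      let U : Set X := Set.range (fun s : (Set.Iio ((x, p) : X × Fin 3)) × Fin 3 =>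
        pr s.2 (prev s.1.1 s.1.2))
      have hU : #U < #X := by
        refine (mk_range_le).trans_lt ?_
        rw [mk_prod, mk_fin]
        simp only [lift_natCast, lift_uzero]
        exact mul_lt_of_lt hinf (hlt _) (natCast_lt_aleph0.trans_le hinf)
      obtain ⟨y, hy, hq⟩ := h p x U hU
      refine ⟨y, hy, .inr fun r' hr q => ?_⟩
      by_cases hqp : q = p
      · subst hqp
        rw [hy]
        exact (hcase r' hr).symm
      · intro heq
        exact hq q hqp ⟨(⟨r', hr⟩, q), heq.symm⟩
  let t : X × Fin 3 → T := (wellFounded_lt (α := X × Fin 3)).fix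
    (fun r prev => Classical.choose (hex r prev))
  have ht : ∀ r, Φ r (fun r' _ => t r') (t r) := by
    intro r
    have h1 : t r = Classical.choose (hex r (fun r' _ => t r')) :=
      (wellFounded_lt (α := X × Fin 3)).fix_eq _ r
    rw [h1]
    exact Classical.choose_spec (hex r (fun r' _ => t r'))
  -- disjointness
  have hdisj : ∀ r2 r1 q, r1 < r2 → pr q (t r1) = pr q (t r2) → t r1 = t r2 := by
    intro r2
    induction r2 using WellFoundedLT.induction with
    | ind r2 ih =>
      intro r1 q h12 heq
      rcases (ht r2).2 with ⟨r', hr', h2⟩ | h2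
      · rw [h2] at heq ⊢
        rcases lt_trichotomy r1 r' with h3 | h3 | h3
        · exact ih r' hr' r1 q h3 heq
        · rw [h3]
        · exact (ih r1 h12 r' q h3 heq.symm).symm
      · exact absurd heq.symm (h2 r1 h12 q)
  refine ⟨Set.range t, fun p x => ⟨t (x, p), ⟨⟨_, rfl⟩, (ht (x, p)).1⟩, ?_⟩⟩
  rintro _ ⟨⟨r, rfl⟩, hr⟩
  have h1 : pr p (t r) = pr p (t (x, p)) := by rw [hr, (ht (x, p)).1]
  rcases lt_trichotomy r (x, p) with h3 | h3 | h3
  · exact hdisj _ _ p h3 h1
  · rw [h3]
  · exact (hdisj _ _ p h3 h1.symm).symm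

end Pool.Agent.Lib.MP_a0202c_co
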