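import Mathlib

/-!
A cardinality version of B. H. Neumann's lemma.
-/

open Cardinal
open scoped Pointwise

universe u v

namespace Pool.Agent.Lib.MP_a0202c_co

theorem mk_closure_le {N : Type u} [Group N] (S : Set N) (hS : S.Infinite) :
    #(Subgroup.closure S) ≤ #S := by
  have hne : Nonempty S := hS.nonempty.to_subtype
  have h1 : #(Subgroup.closure S) ≤ #(FreeGroup S) := by
    rw [FreeGroup.closure_eq_range]
    exact mk_le_of_surjective (MonoidHom.rangeRestrict_surjective _)
  rw [mk_freeGroup, max_eq_left] at h1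
  · exact h1
  · have := hS.to_subtype
    exact aleph0_le_mk S

theorem mk_group_eq {N : Type u} [Group N] [Infinite N] (M : Subgroup N) [M.FiniteIndex] :
    #N = #M := by
  have h1 : #N = #(N ⧸ M) * #M :=
    (mk_congr Subgroup.groupEquivQuotientProdSubgroup).trans (mul_def _ _).symm
  have hfin : Finite (N ⧸ M) := Subgroup.finite_quotient_of_finiteIndex
  have hM : ℵ₀ ≤ #M := by
    by_contra hcon
    push Not at hcon
    have : #N < ℵ₀ := by
      rw [h1]
      exact mul_lt_aleph0 (lt_aleph0_of_finite _) hcon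
    exact absurd (aleph0_le_mk N) (not_le.2 this)
  rw [h1]
  exact mul_eq_right hM ((lt_aleph0_of_finite _).le.trans hM) (mk_ne_zero _)

/-- Let `N` be an infinite group and let finitely many left cosets of subgroups of `N` be given,
none of which contains `1`. Then the complement of their union has the cardinality of `N`. -/
theorem neumann_card {N : Type u} [Group N] [Infinite N] {ι : Type v} (s : Finset ι)
    (H : ι → Subgroup N) (g : ι → N) (h1 : ∀ i ∈ s, (1 : N) ∉ g i • (H i : Set N)) :
    #N ≤ #{n : N | ∀ i ∈ s, n ∉ g i • (H i : Set N)} := by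
  classical
  set S := {n : N | ∀ i ∈ s, n ∉ g i • (H i : Set N)} with hSdef
  by_contra hcon
  push Not at hcon
  -- a finite cover of `S` by cosets of subgroups of infinite index
  obtain ⟨c, M, hM, hc⟩ : ∃ (c : Finset N) (M : Subgroup N), ¬ M.FiniteIndex ∧
      ∀ n ∈ S, ∃ x ∈ c, n ∈ x • (M : Set N) := by
    by_cases hfin : S.Finite
    · refine ⟨hfin.toFinset, ⊥, ?_, fun n hn => ⟨n, hfin.mem_toFinset.2 hn, ?_⟩⟩
      · intro h
        have := Subgroup.finite_quotient_of_finiteIndex (H := (⊥ : Subgroup N))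
        have h2 : Finite N := Finite.of_equiv _ (QuotientGroup.quotientBot (G := N)).toEquiv
        exact not_finite N
      · exact ⟨1, by simp, by simp⟩
    · refine ⟨{1}, Subgroup.closure S, ?_, fun n hn => ⟨1, by simp, ?_⟩⟩
      · intro h
        have := mk_group_eq (Subgroup.closure S)
        exact absurd (this.le.trans (mk_closure_le S hfin)) (not_le.2 hcon)
      · rw [one_smul]
        exact Subgroup.subset_closure hn
  have hcov : ⋃ i ∈ s.disjSum c, (Sum.elim g id i) •
      ((Sum.elim H (fun _ => M) i : Subgroup N) : Set N) = Set.univ := by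
    refine Set.eq_univ_of_forall fun n => ?_
    by_cases hn : n ∈ S
    · obtain ⟨x, hx, hnx⟩ := hc n hn
      exact Set.mem_iUnion₂.2 ⟨.inr x, Finset.mem_disjSum.2 (.inr ⟨x, hx, rfl⟩), hnx⟩
    · simp only [hSdef, Set.mem_ofPred_eq] at hn
      push Not at hn
      obtain ⟨i, hi, hni⟩ := hn
      exact Set.mem_iUnion₂.2 ⟨.inl i, Finset.mem_disjSum.2 (.inl ⟨i, hi, rfl⟩), hni⟩
  have hcov2 := Subgroup.leftCoset_cover_filter_FiniteIndex hcov
  have hone : (1 : N) ∈ ⋃ k ∈ (s.disjSum c).filter
      (fun i => (Sum.elim H (fun _ => M) i : Subgroup N).FiniteIndex), (Sum.elim g id k) •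
      ((Sum.elim H (fun _ => M) k : Subgroup N) : Set N) := by
    rw [hcov2]; trivial
  obtain ⟨k, hk, hk1⟩ := Set.mem_iUnion₂.1 hone
  rw [Finset.mem_filter, Finset.mem_disjSum] at hk
  rcases hk.1 with ⟨i, hi, rfl⟩ | ⟨x, hx, rfl⟩
  · exact h1 i hi hk1
  · exact hM hk.2

end Pool.Agent.Lib.MP_a0202c_co
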