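import Pool.Agent.Lib.MP_a0202c_co.SubFin

/-!
The local problem at a point stabiliser, and the case of TI point stabilisers.
-/

open Cardinal
open scoped Pointwise

universe u

namespace Pool.Agent.Lib.MP_a0202c_co

variable {G : Type u} [Group G] {Ω : Type u} [MulAction G Ω]

theorem stab₂_self (a : Ω) : stab₂ G a a = MulAction.stabilizer G a := inf_idem _

section Reg

variable {K : Subgroup G} {a : Ω} (hK : MulAction.stabilizer G a = K)
  (htr : ∀ x y : Ω, ∃ g : G, g • x = y)

include hK htr

theorem exists_equiv : ∃ e : NQ K ≃ {x : Ω // MulAction.stabilizer G x = K},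
    (e 1).1 = a ∧ ∀ (n : ↥(Subgroup.normalizer (K : Set G))) (r : NQ K),
      (e ((QuotientGroup.mk n) * r)).1 = (n : G) • (e r).1 := by
  classical
  have hst : ∀ n : ↥(Subgroup.normalizer (K : Set G)), MulAction.stabilizer G ((n : G) • a) = K := by
    intro n
    rw [← stab₂_self]
    exact stab₂_smul_of_normalizer n.2 ((stab₂_self a).trans hK)
  have hwd : ∀ n n' : ↥(Subgroup.normalizer (K : Set G)),
      (QuotientGroup.mk n : NQ K) = QuotientGroup.mk n' ↔ (n : G) • a = (n' : G) • a := by
    intro n n'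
    rw [QuotientGroup.eq]
    have h1 : (n : G)⁻¹ * (n' : G) ∈ K ↔ (n : G)⁻¹ * (n' : G) ∈ MulAction.stabilizer G a := by
      rw [hK]
    refine Iff.trans h1 ?_
    rw [MulAction.mem_stabilizer_iff, mul_smul, inv_smul_eq_iff, eq_comm]
  let φ : NQ K → {x : Ω // MulAction.stabilizer G x = K} := fun q => ⟨(q.out : G) • a, hst _⟩
  have hφ : ∀ n : ↥(Subgroup.normalizer (K : Set G)),
      (φ (QuotientGroup.mk n)).1 = (n : G) • a := by
    intro n
    exact (hwd _ _).1 (QuotientGroup.out_eq' _)
  have hφb : Function.Bijective φ := by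
    constructor
    · intro q q' h
      have h1 : (q.out : G) • a = (q'.out : G) • a := congrArg Subtype.val h
      have h2 := (hwd _ _).2 h1
      rwa [QuotientGroup.out_eq', QuotientGroup.out_eq'] at h2
    · rintro ⟨x, hx⟩
      obtain ⟨g, hg⟩ := htr a x
      have hgn : g ∈ Subgroup.normalizer (K : Set G) := by
        refine mem_normalizer_of_smul ((stab₂_self a).trans hK) ?_
        rw [hg, stab₂_self, hx]
      exact ⟨QuotientGroup.mk ⟨g, hgn⟩, Subtype.ext ((hφ _).trans hg)⟩
  refine ⟨Equiv.ofBijective φ hφb, ?_, ?_⟩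
  · have := hφ 1
    simpa using this
  · intro n r
    obtain ⟨m, rfl⟩ := QuotientGroup.mk_surjective r
    change (φ (QuotientGroup.mk (n * m))).1 = (n : G) • (φ (QuotientGroup.mk m)).1
    rw [hφ, hφ, ← mul_smul]
    rfl

/-- The local problem at a point stabiliser is the complete mapping problem. -/
theorem isLocalLatin_stabilizer_iff
    (hF : ∀ x ∈ fixSet K Ω, MulAction.stabilizer G x = K) :
    (∃ L : Set (Ω × Ω × Ω), IsLocalLatin G K L) ↔ HasCompleteMapping (NQ K) := by
  classical
  obtain ⟨e, he1, hemul⟩ := exists_equiv hK htr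
  have hpair : ∀ x y : Ω, stab₂ G x y = K → MulAction.stabilizer G x = K ∧
      MulAction.stabilizer G y = K := by
    intro x y hxy
    have := mem_fixSet_of_stab hxy
    exact ⟨hF x this.1, hF y this.2⟩
  have hpair' : ∀ x y : {x : Ω // MulAction.stabilizer G x = K}, stab₂ G x.1 y.1 = K := by
    intro x y
    rw [stab₂, x.2, y.2, inf_idem]
  constructor
  · rintro ⟨L, hL⟩
    have hex : ∀ q : NQ K, ∃ r : NQ K, (a, (e q).1, (e r).1) ∈ L := by
      intro q
      obtain ⟨z, hz, _⟩ := hL.xy a (e q).1 (by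
        have := hpair' (e 1) (e q)
        rwa [he1] at this)
      have hzK := (hpair _ _ (hL.stab _ _ _ hz).2.1).2
      exact ⟨e.symm ⟨z, hzK⟩, by rw [Equiv.apply_symm_apply]; exact hz⟩
    choose f hf using hex
    have hone : ∀ q : NQ K, stab₂ G a (e q).1 = K := by
      intro q
      have := hpair' (e 1) (e q)
      rwa [he1] at this
    have hfu : ∀ q r, (a, (e q).1, (e r).1) ∈ L → f q = r := by
      intro q r h
      have := (hL.xy a (e q).1 (hone q)).unique (hf q) h
      exact e.injective (Subtype.ext this)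
    have hmul : ∀ (s x y z : NQ K), ((e x).1, (e y).1, (e z).1) ∈ L →
        ((e (s * x)).1, (e (s * y)).1, (e (s * z)).1) ∈ L := by
      intro s x y z h
      obtain ⟨n, rfl⟩ := QuotientGroup.mk_surjective s
      rw [hemul, hemul, hemul]
      exact hL.smul n n.2 _ _ _ h
    have hf' : ∀ q, ((e q⁻¹).1, (e 1).1, (e (q⁻¹ * f q)).1) ∈ L := by
      intro q
      have h := hf q
      rw [← he1] at h
      have := hmul q⁻¹ _ _ _ h
      rwa [mul_one, inv_mul_cancel] at this
    have hfb : Function.Bijective f := by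
      constructor
      · intro q q' h
        have h1 := hf q
        have h2 := hf q'
        rw [← h] at h2
        have := (hL.xz a _ (hone (f q))).unique h1 h2
        exact e.injective (Subtype.ext this)
      · intro r
        obtain ⟨y, hy, _⟩ := hL.xz a _ (hone r)
        have hyK := (hpair _ _ (hL.stab _ _ _ hy).1).2
        refine ⟨e.symm ⟨y, hyK⟩, hfu _ _ ?_⟩
        rw [Equiv.apply_symm_apply]
        exact hy
    refine ⟨fun q => q⁻¹ * f q, ⟨?_, ?_⟩, ?_⟩
    · intro q q' h
      have h1 := hf' q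
      have h2 := hf' q'
      simp only at h
      rw [← h] at h2
      have := (hL.yz _ _ (hpair' _ _)).unique h1 h2
      have h3 : q⁻¹ = q'⁻¹ := e.injective (Subtype.ext this)
      exact inv_injective h3
    · intro r
      obtain ⟨x, hx, _⟩ := hL.yz _ _ (hpair' (e 1) (e r))
      have hxK := (hpair _ _ (hL.stab _ _ _ hx).1).1
      obtain ⟨s, hs⟩ := e.surjective ⟨x, hxK⟩
      have hs' : x = (e s).1 := by rw [hs]
      rw [hs'] at hx
      have h1 := hmul s⁻¹ _ _ _ hx
      rw [inv_mul_cancel, mul_one, he1] at h1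
      have h2 := hfu _ _ h1
      refine ⟨s⁻¹, ?_⟩
      simp only
      rw [h2]
      group
    · have : (fun x => x * (x⁻¹ * f x)) = f := by
        funext x
        group
      rw [this]
      exact hfb
  · rintro ⟨θ, hθ, hf⟩
    refine ⟨{t | ∃ s q : NQ K, t = ((e s).1, (e (s * q)).1, (e (s * (q * θ q))).1)},
      ?_, ?_, ?_, ?_, ?_⟩
    · rintro x y z ⟨s, q, h⟩
      simp only [Prod.mk.injEq] at h
      obtain ⟨rfl, rfl, rfl⟩ := h
      exact ⟨hpair' _ _, hpair' _ _, hpair' _ _⟩
    · rintro n hn x y z ⟨s, q, h⟩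
      simp only [Prod.mk.injEq] at h
      obtain ⟨rfl, rfl, rfl⟩ := h
      refine ⟨QuotientGroup.mk ⟨n, hn⟩ * s, q, ?_⟩
      rw [mul_assoc, mul_assoc, hemul, hemul, hemul]
    · intro x y hxy
      obtain ⟨hx, hy⟩ := hpair x y hxy
      obtain ⟨s, hs⟩ := e.surjective ⟨x, hx⟩
      obtain ⟨r, hr⟩ := e.surjective ⟨y, hy⟩
      have hs' : x = (e s).1 := by rw [hs]
      have hr' : y = (e r).1 := by rw [hr]
      subst hs' hr'
      refine ⟨(e (s * (s⁻¹ * r * θ (s⁻¹ * r)))).1, ⟨s, s⁻¹ * r, by
        rw [mul_inv_cancel_left]⟩, ?_⟩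
      rintro z ⟨s', q', h⟩
      simp only [Prod.mk.injEq] at h
      obtain ⟨h1, h2, h3⟩ := h
      have h1' : s = s' := e.injective (Subtype.ext h1)
      have h2' : r = s' * q' := e.injective (Subtype.ext h2)
      rw [h3, h2', h1', inv_mul_cancel_left]
    · intro x z hxz
      obtain ⟨hx, hz⟩ := hpair x z hxz
      obtain ⟨s, hs⟩ := e.surjective ⟨x, hx⟩
      obtain ⟨r, hr⟩ := e.surjective ⟨z, hz⟩
      have hs' : x = (e s).1 := by rw [hs]
      have hr' : z = (e r).1 := by rw [hr]
      subst hs' hr'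
      obtain ⟨q, hq⟩ := hf.surjective (s⁻¹ * r)
      simp only at hq
      refine ⟨(e (s * q)).1, ⟨s, q, by rw [hq, mul_inv_cancel_left]⟩, ?_⟩
      rintro y ⟨s', q', h⟩
      simp only [Prod.mk.injEq] at h
      obtain ⟨h1, h2, h3⟩ := h
      have h1' : s = s' := e.injective (Subtype.ext h1)
      have h3' : r = s' * (q' * θ q') := e.injective (Subtype.ext h3)
      have h4 : q' = q := by
        apply hf.injective
        simp only
        rw [hq, h3', h1', inv_mul_cancel_left]
      rw [h2, h4, h1']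
    · intro y z hyz
      obtain ⟨hy, hz⟩ := hpair y z hyz
      obtain ⟨s, hs⟩ := e.surjective ⟨y, hy⟩
      obtain ⟨r, hr⟩ := e.surjective ⟨z, hz⟩
      have hs' : y = (e s).1 := by rw [hs]
      have hr' : z = (e r).1 := by rw [hr]
      subst hs' hr'
      obtain ⟨q, hq⟩ := hθ.surjective (s⁻¹ * r)
      refine ⟨(e (s * q⁻¹)).1, ⟨s * q⁻¹, q, ?_⟩, ?_⟩
      · rw [hq]
        simp [mul_assoc]
      rintro x ⟨s', q', h⟩
      simp only [Prod.mk.injEq] at h
      obtain ⟨h1, h2, h3⟩ := h
      have h2' : s = s' * q' := e.injective (Subtype.ext h2)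
      have h3' : r = s' * (q' * θ q') := e.injective (Subtype.ext h3)
      have h4 : q' = q := by
        apply hθ.injective
        rw [hq, h3', h2']
        group
      rw [h1, h2', ← h4, mul_inv_cancel_right]

end Reg

end Pool.Agent.Lib.MP_a0202c_co
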