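import Pool.Agent.Lib.MP_a0202c_co.Local
import Pool.Agent.Lib.MP_a0202c_co.Matching
import Pool.Agent.Lib.MP_a0202c_co.Neumann

/-!
Latin triple systems at a subgroup `K` with `N_G(K)/K` infinite, when all suborbits are finite.
-/

open Cardinal
open scoped Pointwise

universe u

namespace Pool.Agent.Lib.MP_a0202c_co

variable {G : Type u} [Group G] {Ω : Type u} [MulAction G Ω]

/-- Points fixed by `K`. -/
def fixSet (K : Subgroup G) (Ω : Type u) [MulAction G Ω] : Set Ω := {x | ∀ k ∈ K, k • x = x}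

theorem mem_fixSet {K : Subgroup G} {x : Ω} : x ∈ fixSet K Ω ↔ ∀ k ∈ K, k • x = x := Iff.rfl

theorem mem_fixSet_of_stab {K : Subgroup G} {a b : Ω} (h : stab₂ G a b = K) :
    a ∈ fixSet K Ω ∧ b ∈ fixSet K Ω := by
  subst h
  exact ⟨fun k hk => hk.1, fun k hk => hk.2⟩

/-- Finitely many subgroups between a two-point stabiliser and a point stabiliser. -/
theorem finite_between (a b : Ω) (h : (MulAction.orbit (MulAction.stabilizer G a) b).Finite) :
    {J : Subgroup G | stab₂ G a b ≤ J ∧ J ≤ MulAction.stabilizer G a}.Finite := by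
  refine Set.Finite.of_finite_image (f := fun J : Subgroup G => {x : Ω | ∃ g ∈ J, g • b = x})
    (h.finite_subsets.subset ?_) ?_
  · rintro _ ⟨J, ⟨_, hJ⟩, rfl⟩
    rintro x ⟨g, hg, rfl⟩
    exact ⟨⟨g, hJ hg⟩, rfl⟩
  · have key : ∀ J J' : Subgroup G, stab₂ G a b ≤ J' → J ≤ MulAction.stabilizer G a →
        J' ≤ MulAction.stabilizer G a →
        {x : Ω | ∃ g ∈ J, g • b = x} = {x : Ω | ∃ g ∈ J', g • b = x} → J ≤ J' := by
      intro J J' h1 h2 h3 heq g hg
      have : g • b ∈ {x : Ω | ∃ g ∈ J', g • b = x} := by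
        rw [← heq]; exact ⟨g, hg, rfl⟩
      obtain ⟨g', hg', hgg⟩ := this
      have h4 : g'⁻¹ * g ∈ stab₂ G a b := by
        rw [mem_stab₂]
        refine ⟨?_, ?_⟩
        · rw [mul_smul, inv_smul_eq_iff]
          exact (h2 hg).trans (h3 hg').symm
        · rw [mul_smul, inv_smul_eq_iff, hgg]
      have h5 := J'.mul_mem hg' (h1 h4)
      rwa [mul_inv_cancel_left] at h5
    intro J hJ J' hJ' heq
    exact le_antisymm (key J J' hJ'.1 hJ.2 hJ'.2 heq) (key J' J hJ.1 hJ'.2 hJ.2 heq.symm)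

section Count

variable {K : Subgroup G} {a c₀ : Ω}

/-- The set of classes of elements moving `c₀` to a point `c` with `G_{ac} = K` is co-small. -/
theorem exists_cosets (hac : stab₂ G a c₀ = K)
    (h1 : (MulAction.orbit (MulAction.stabilizer G a) c₀).Finite)
    (h2 : (MulAction.orbit (MulAction.stabilizer G c₀) a).Finite) :
    ∃ (s : Finset (Subgroup G × Subgroup G)) (H : Subgroup G × Subgroup G → Subgroup (NQ K))
      (g : Subgroup G × Subgroup G → NQ K),
      (∀ i ∈ s, (1 : NQ K) ∉ g i • (H i : Set (NQ K))) ∧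
      ∀ n : ↥(Subgroup.normalizer (K : Set G)),
        (∀ i ∈ s, (QuotientGroup.mk n : NQ K) ∉ g i • (H i : Set (NQ K))) →
        stab₂ G a ((n : G) • c₀) = K := by
  classical
  have hf1 := finite_between a c₀ h1
  have hf2 := finite_between c₀ a h2
  rw [stab₂_comm, hac] at hf2
  rw [hac] at hf1
  let P : Set (Subgroup G × Subgroup G) :=
    {p | (K ≤ p.1 ∧ p.1 ≤ MulAction.stabilizer G a) ∧
      (K ≤ p.2 ∧ p.2 ≤ MulAction.stabilizer G c₀) ∧ p.1 ≠ K ∧
      ∃ n : ↥(Subgroup.normalizer (K : Set G)), cj (n : G) p.2 = p.1}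
  have hP : P.Finite := (hf1.prod hf2).subset (fun p hp => ⟨hp.1, hp.2.1⟩)
  have hex : ∀ p : Subgroup G × Subgroup G, ∃ n : ↥(Subgroup.normalizer (K : Set G)),
      p ∈ P → cj (n : G) p.2 = p.1 := by
    intro p
    by_cases hp : p ∈ P
    · obtain ⟨n, hn⟩ := hp.2.2.2
      exact ⟨n, fun _ => hn⟩
    · exact ⟨1, fun h => absurd h hp⟩
  choose ν hν using hex
  refine ⟨hP.toFinset, fun p => ((Subgroup.normalizer (p.2 : Set G)).subgroupOf
    (Subgroup.normalizer (K : Set G))).map (QuotientGroup.mk' _),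
    fun p => (QuotientGroup.mk (ν p) : NQ K), ?_, ?_⟩
  · intro p hp h1
    have hpP := hP.mem_toFinset.1 hp
    rw [Set.mem_smul_set] at h1
    obtain ⟨_, ⟨m, hm, rfl⟩, hm1⟩ := h1
    have h3 : (QuotientGroup.mk (ν p * m) : NQ K) = 1 := hm1
    rw [QuotientGroup.eq_one_iff] at h3
    have h4 : ((ν p : G)) * (m : G) ∈ K := h3
    have h5 : (m : G) ∈ Subgroup.normalizer (p.2 : Set G) := hm
    have h6 : (ν p : G) * (m : G) ∈ Subgroup.normalizer (p.2 : Set G) :=
      Subgroup.le_normalizer (hpP.2.1.1 h4)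
    have h7 : (ν p : G) ∈ Subgroup.normalizer (p.2 : Set G) := by
      have := Subgroup.mul_mem _ h6 (Subgroup.inv_mem _ h5)
      rwa [mul_inv_cancel_right] at this
    have h8 := hν p hpP
    rw [cj_eq_iff_mem_normalizer.2 h7] at h8
    apply hpP.2.2.1
    apply le_antisymm _ hpP.1.1
    rw [← hac]
    refine le_inf hpP.1.2 ?_
    rw [← h8]
    exact hpP.2.1.2
  · intro n hn
    by_contra hcon
    -- the bad pair of subgroups
    let p : Subgroup G × Subgroup G :=
      (stab₂ G a ((n : G) • c₀), cj (n : G)⁻¹ (stab₂ G a ((n : G) • c₀)))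
    have hKc : ∀ k ∈ K, k • ((n : G) • c₀) = (n : G) • c₀ := by
      intro k hk
      have h3 : (n : G)⁻¹ * k * n ∈ K := (Subgroup.mem_set_normalizer_iff''.1 n.2 k).1 hk
      have h4 := (mem_stab₂.1 (hac.ge h3)).2
      rw [mul_assoc, mul_smul, inv_smul_eq_iff, mul_smul] at h4
      exact h4
    have hKa : ∀ k ∈ K, k • a = a := by
      intro k hk
      exact (hac.ge hk).1
    have hK1 : K ≤ p.1 := fun k hk => ⟨hKa k hk, hKc k hk⟩
    have hK2 : K ≤ p.2 := by
      intro k hk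
      change k ∈ cj (n : G)⁻¹ p.1
      rw [mem_cj, inv_inv]
      exact hK1 ((Subgroup.mem_set_normalizer_iff.1 n.2 k).1 hk)
    have hp2 : p.2 ≤ MulAction.stabilizer G c₀ := by
      intro k hk
      change k ∈ cj (n : G)⁻¹ p.1 at hk
      rw [mem_cj, inv_inv] at hk
      have h3 : ((n : G) * k * (n : G)⁻¹) • ((n : G) • c₀) = (n : G) • c₀ := hk.2
      rw [mul_smul, mul_smul, inv_smul_smul] at h3
      exact smul_left_cancel _ h3
    have hpn : cj (n : G) p.2 = p.1 := by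
      change cj (n : G) (cj (n : G)⁻¹ p.1) = p.1
      rw [cj_cj, mul_inv_cancel, cj_one]
    have hpP : p ∈ P := ⟨⟨hK1, inf_le_left⟩, ⟨hK2, hp2⟩, hcon, n, hpn⟩
    apply hn p (hP.mem_toFinset.2 hpP)
    rw [Set.mem_smul_set]
    have h3 : ((ν p)⁻¹ * n : ↥(Subgroup.normalizer (K : Set G))) ∈
        ((Subgroup.normalizer (p.2 : Set G)).subgroupOf (Subgroup.normalizer (K : Set G))) := by
      change (ν p : G)⁻¹ * (n : G) ∈ Subgroup.normalizer (p.2 : Set G)
      rw [← cj_eq_iff_mem_normalizer, ← cj_cj, hpn]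
      exact cj_inv_of (hν p hpP)
    refine ⟨QuotientGroup.mk ((ν p)⁻¹ * n), ⟨_, h3, rfl⟩, ?_⟩
    change (QuotientGroup.mk (ν p * ((ν p)⁻¹ * n)) : NQ K) = _
    rw [mul_inv_cancel_left]

/-- The number of points `c` with `G_{ac} = G_{bc} = K`. -/
theorem count {b : Ω} (hsub : ∀ x y : Ω, (MulAction.orbit (MulAction.stabilizer G x) y).Finite)
    (hac : stab₂ G a c₀ = K) (hbc : stab₂ G b c₀ = K) [Infinite (NQ K)] :
    #(NQ K) ≤ #{c : Ω | stab₂ G a c = K ∧ stab₂ G b c = K} := by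
  classical
  obtain ⟨s, H, g, h1, h2⟩ := exists_cosets hac (hsub _ _) (hsub _ _)
  obtain ⟨s', H', g', h1', h2'⟩ := exists_cosets hbc (hsub _ _) (hsub _ _)
  have hcard := neumann_card (s.disjSum s') (Sum.elim H H') (Sum.elim g g') (by
    intro i hi
    rcases Finset.mem_disjSum.1 hi with ⟨j, hj, rfl⟩ | ⟨j, hj, rfl⟩
    · exact h1 j hj
    · exact h1' j hj)
  set S := {n : NQ K | ∀ i ∈ s.disjSum s', n ∉ (Sum.elim g g') i •
    ((Sum.elim H H') i : Set (NQ K))} with hS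
  have hgood : ∀ q ∈ S, stab₂ G a ((q.out : G) • c₀) = K ∧ stab₂ G b ((q.out : G) • c₀) = K := by
    intro q hq
    constructor
    · apply h2
      intro i hi
      rw [QuotientGroup.out_eq']
      exact hq (.inl i) (Finset.mem_disjSum.2 (.inl ⟨i, hi, rfl⟩))
    · apply h2'
      intro i hi
      rw [QuotientGroup.out_eq']
      exact hq (.inr i) (Finset.mem_disjSum.2 (.inr ⟨i, hi, rfl⟩))
  let C := {c : Ω | stab₂ G a c = K ∧ stab₂ G b c = K}
  let ψ : S → C := fun q => ⟨(q.1.out : G) • c₀, hgood q.1 q.2⟩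
  have hfib' : ∀ c : C, Finite {q : S // ψ q = c} := by
    intro c
    by_cases hne : ∃ q, ψ q = c
    · obtain ⟨q0, hq0⟩ := hne
      have hq0' : (q0.1.out : G) • c₀ = c.1 := congrArg Subtype.val hq0
      have hfin := hsub c.1 ((q0.1.out : G) • a)
      have hf2 := hfin.to_subtype
      refine Finite.of_injective (β := MulAction.orbit (MulAction.stabilizer G c.1)
        ((q0.1.out : G) • a)) (fun q => ⟨(q.1.1.out : G) • a, ?_⟩) ?_
      · have hq' : (q.1.1.out : G) • c₀ = c.1 := congrArg Subtype.val q.2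
        refine ⟨⟨(q.1.1.out : G) * (q0.1.out : G)⁻¹, ?_⟩, ?_⟩
        · rw [MulAction.mem_stabilizer_iff, ← hq0', mul_smul, inv_smul_smul, hq', hq0']
        · change ((q.1.1.out : G) * (q0.1.out : G)⁻¹) • ((q0.1.out : G) • a) = _
          rw [mul_smul, inv_smul_smul]
      · intro q q' hqq
        have ha : (q.1.1.out : G) • a = (q'.1.1.out : G) • a := congrArg Subtype.val hqq
        have hq1 : (q.1.1.out : G) • c₀ = c.1 := congrArg Subtype.val q.2
        have hq2 : (q'.1.1.out : G) • c₀ = c.1 := congrArg Subtype.val q'.2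
        have hmem : (q.1.1.out : G)⁻¹ * (q'.1.1.out : G) ∈ K := by
          refine hac.le ?_
          rw [mem_stab₂]
          refine ⟨?_, ?_⟩
          · rw [mul_smul, ← ha, inv_smul_smul]
          · rw [mul_smul, hq2, ← hq1, inv_smul_smul]
        have h3 : (QuotientGroup.mk q.1.1.out : NQ K) = QuotientGroup.mk q'.1.1.out :=
          QuotientGroup.eq.2 hmem
        rw [QuotientGroup.out_eq', QuotientGroup.out_eq'] at h3
        exact Subtype.ext (Subtype.ext h3)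
    · have : IsEmpty {q : S // ψ q = c} := ⟨fun q => hne ⟨q.1, q.2⟩⟩
      infer_instance
  have hfib : ∀ c : C, #(ψ ⁻¹' {c}) ≤ ℵ₀ := by
    intro c
    have := hfib' c
    exact (lt_aleph0_iff_finite.2 this).le
  have hinf : ℵ₀ ≤ #(NQ K) := aleph0_le_mk _
  have h3 : #(NQ K) ≤ #C * ℵ₀ := hcard.trans (mk_le_mk_mul_of_mk_preimage_le ψ hfib)
  have hCinf : ℵ₀ ≤ #C := by
    by_contra hcon
    push Not at hcon
    have hCfin : Finite C := lt_aleph0_iff_finite.1 hcon
    have hSfin : Finite S := Finite.of_equiv _ (Equiv.sigmaFiberEquiv ψ)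
    exact absurd (hinf.trans hcard) (not_le.2 (lt_aleph0_of_finite _))
  rwa [mul_aleph0_eq hCinf] at h3

end Count

theorem mk_preimage_lt {α β : Type u} (f : α → β) (hf : ∀ b, (f ⁻¹' {b}).Finite) (U : Set β)
    {κ : Cardinal.{u}} (hκ : ℵ₀ ≤ κ) (hU : #U < κ) : #(f ⁻¹' U) < κ := by
  by_cases hfin : U.Finite
  · have : (f ⁻¹' U).Finite := hfin.preimage' fun b _ => hf b
    exact (lt_aleph0_iff_set_finite.2 this).trans_le hκ
  · have h1 : #(f ⁻¹' U) ≤ #U * ℵ₀ := by
      refine mk_le_mk_mul_of_mk_preimage_le (fun x : f ⁻¹' U => (⟨f x.1, x.2⟩ : U)) fun b => ?_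
      have h2 : Finite (f ⁻¹' {b.1}) := hf b.1
      have h3 : Finite ((fun x : f ⁻¹' U => (⟨f x.1, x.2⟩ : U)) ⁻¹' {b}) := by
        refine Finite.of_injective (β := f ⁻¹' {b.1}) (fun x => ⟨x.1.1, ?_⟩) ?_
        · exact congrArg Subtype.val x.2
        · intro x y hxy
          exact Subtype.ext (Subtype.ext (Subtype.mk.inj hxy))
      exact (lt_aleph0_iff_finite.2 h3).le
    have h4 : ℵ₀ ≤ #U := infinite_iff.1 (Set.infinite_coe_iff.2 hfin)
    rw [mul_aleph0_eq h4] at h1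
    exact h1.trans_lt hU

theorem exists_avoid {α β : Type u} (f f' : α → β) (hf : ∀ b, (f ⁻¹' {b}).Finite)
    (hf' : ∀ b, (f' ⁻¹' {b}).Finite) (U : Set β) (C : Set α)
    {κ : Cardinal.{u}} (hκ : ℵ₀ ≤ κ) (hU : #U < κ) (hC : κ ≤ #C) :
    ∃ c ∈ C, f c ∉ U ∧ f' c ∉ U := by
  by_contra hcon
  push Not at hcon
  have h1 : C ⊆ f ⁻¹' U ∪ f' ⁻¹' U := by
    intro c hc
    by_cases h : f c ∈ U
    · exact .inl h
    · exact .inr (hcon c hc h)
  have h2 : #C ≤ #(f ⁻¹' U) + #(f' ⁻¹' U) := (mk_le_mk_of_subset h1).trans (mk_union_le _ _)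
  exact absurd (hC.trans h2) (not_le.2
    (add_lt_of_lt hκ (mk_preimage_lt f hf U hκ hU) (mk_preimage_lt f' hf' U hκ hU)))

theorem finite_fiber_left (hsub : ∀ x y : Ω, (MulAction.orbit (MulAction.stabilizer G x) y).Finite)
    (a : Ω) (o : MulAction.orbitRel.Quotient G (Ω × Ω)) :
    ((fun c => orbital G a c) ⁻¹' {o}).Finite := by
  by_cases hne : ((fun c => orbital G a c) ⁻¹' {o}).Nonempty
  · obtain ⟨c, hc⟩ := hne
    refine (hsub a c).subset ?_
    intro c' hc'
    have h1 : orbital G a c' = orbital G a c := hc'.trans hc.symm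
    obtain ⟨g, hg1, hg2⟩ := orbital_eq_iff.1 h1
    exact ⟨⟨g, hg1⟩, hg2⟩
  · rw [Set.not_nonempty_iff_eq_empty] at hne
    rw [hne]
    exact Set.finite_empty

theorem finite_fiber_right (hsub : ∀ x y : Ω, (MulAction.orbit (MulAction.stabilizer G x) y).Finite)
    (a : Ω) (o : MulAction.orbitRel.Quotient G (Ω × Ω)) :
    ((fun c => orbital G c a) ⁻¹' {o}).Finite := by
  by_cases hne : ((fun c => orbital G c a) ⁻¹' {o}).Nonempty
  · obtain ⟨c, hc⟩ := hne
    refine (hsub a c).subset ?_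
    intro c' hc'
    have h1 : orbital G c' a = orbital G c a := hc'.trans hc.symm
    obtain ⟨g, hg1, hg2⟩ := orbital_eq_iff.1 h1
    exact ⟨⟨g, hg2⟩, hg1⟩
  · rw [Set.not_nonempty_iff_eq_empty] at hne
    rw [hne]
    exact Set.finite_empty

/-- Orbitals of pairs with stabiliser `K`. -/
def XK (K : Subgroup G) (Ω : Type u) [MulAction G Ω] :
    Set (MulAction.orbitRel.Quotient G (Ω × Ω)) :=
  {o | ∃ x y : Ω, stab₂ G x y = K ∧ orbital G x y = o}

/-- Triples all of whose two-point stabilisers are `K`. -/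
def TK (K : Subgroup G) (Ω : Type u) [MulAction G Ω] : Type u :=
  {t : Ω × Ω × Ω // stab₂ G t.1 t.2.1 = K ∧ stab₂ G t.1 t.2.2 = K ∧ stab₂ G t.2.1 t.2.2 = K}

/-- The three orbitals of a triple. -/
def prK (K : Subgroup G) : Fin 3 → TK K Ω → XK K Ω
  | 0, t => ⟨orbital G t.1.1 t.1.2.1, _, _, t.2.1, rfl⟩
  | 1, t => ⟨orbital G t.1.1 t.1.2.2, _, _, t.2.2.1, rfl⟩
  | 2, t => ⟨orbital G t.1.2.1 t.1.2.2, _, _, t.2.2.2, rfl⟩

/-- From a matching to a Latin triple system. -/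
theorem isLocalLatin_of_matching (K : Subgroup G) (M : Set (TK K Ω))
    (hM : ∀ p x, ∃! t, t ∈ M ∧ prK K p t = x) :
    IsLocalLatin G K {t : Ω × Ω × Ω | ∃ u ∈ M, ∃ n ∈ Subgroup.normalizer (K : Set G),
      t = (n • u.1.1, n • u.1.2.1, n • u.1.2.2)} := by
  refine ⟨?_, ?_, ?_, ?_, ?_⟩
  · rintro x y z ⟨u, hu, n, hn, h⟩
    simp only [Prod.mk.injEq] at h
    obtain ⟨rfl, rfl, rfl⟩ := h
    exact ⟨stab₂_smul_of_normalizer hn u.2.1, stab₂_smul_of_normalizer hn u.2.2.1,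
      stab₂_smul_of_normalizer hn u.2.2.2⟩
  · rintro n hn x y z ⟨u, hu, n', hn', h⟩
    simp only [Prod.mk.injEq] at h
    obtain ⟨rfl, rfl, rfl⟩ := h
    exact ⟨u, hu, n * n', Subgroup.mul_mem _ hn hn', by simp [mul_smul]⟩
  · intro x y hxy
    obtain ⟨u, ⟨hu, hux⟩, huniq⟩ := hM 0 ⟨orbital G x y, x, y, hxy, rfl⟩
    have h1 : orbital G x y = orbital G u.1.1 u.1.2.1 := (congrArg Subtype.val hux).symm
    obtain ⟨n, hn1, hn2⟩ := orbital_eq_iff.1 h1
    have hn : n ∈ Subgroup.normalizer (K : Set G) := by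
      refine mem_normalizer_of_smul u.2.1 ?_
      rw [hn1, hn2, hxy]
    refine ⟨n • u.1.2.2, ⟨u, hu, n, hn, by rw [hn1, hn2]⟩, ?_⟩
    rintro z ⟨u', hu', n', hn', h⟩
    simp only [Prod.mk.injEq] at h
    obtain ⟨h2, h3, h4⟩ := h
    have h5 : u' = u := by
      apply huniq
      refine ⟨hu', Subtype.ext ?_⟩
      change orbital G u'.1.1 u'.1.2.1 = orbital G x y
      rw [h2, h3, orbital_smul]
    subst h5
    rw [h4]
    have hmem : n⁻¹ * n' ∈ stab₂ G u'.1.1 u'.1.2.2 := by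
      rw [u'.2.2.1, ← u'.2.1, mem_stab₂, mul_smul, mul_smul, ← h2, ← h3, ← hn1, ← hn2,
        inv_smul_smul, inv_smul_smul]
      exact ⟨rfl, rfl⟩
    have := (mem_stab₂.1 hmem).2
    rw [mul_smul, inv_smul_eq_iff] at this
    exact this
  · intro x z hxz
    obtain ⟨u, ⟨hu, hux⟩, huniq⟩ := hM 1 ⟨orbital G x z, x, z, hxz, rfl⟩
    have h1 : orbital G x z = orbital G u.1.1 u.1.2.2 := (congrArg Subtype.val hux).symm
    obtain ⟨n, hn1, hn2⟩ := orbital_eq_iff.1 h1
    have hn : n ∈ Subgroup.normalizer (K : Set G) := by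
      refine mem_normalizer_of_smul u.2.2.1 ?_
      rw [hn1, hn2, hxz]
    refine ⟨n • u.1.2.1, ⟨u, hu, n, hn, by rw [hn1, hn2]⟩, ?_⟩
    rintro y ⟨u', hu', n', hn', h⟩
    simp only [Prod.mk.injEq] at h
    obtain ⟨h2, h3, h4⟩ := h
    have h5 : u' = u := by
      apply huniq
      refine ⟨hu', Subtype.ext ?_⟩
      change orbital G u'.1.1 u'.1.2.2 = orbital G x z
      rw [h2, h4, orbital_smul]
    subst h5
    rw [h3]
    have hmem : n⁻¹ * n' ∈ stab₂ G u'.1.1 u'.1.2.1 := by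
      rw [u'.2.1, ← u'.2.2.1, mem_stab₂, mul_smul, mul_smul, ← h2, ← h4, ← hn1, ← hn2,
        inv_smul_smul, inv_smul_smul]
      exact ⟨rfl, rfl⟩
    have := (mem_stab₂.1 hmem).2
    rw [mul_smul, inv_smul_eq_iff] at this
    exact this
  · intro y z hyz
    obtain ⟨u, ⟨hu, hux⟩, huniq⟩ := hM 2 ⟨orbital G y z, y, z, hyz, rfl⟩
    have h1 : orbital G y z = orbital G u.1.2.1 u.1.2.2 := (congrArg Subtype.val hux).symm
    obtain ⟨n, hn1, hn2⟩ := orbital_eq_iff.1 h1
    have hn : n ∈ Subgroup.normalizer (K : Set G) := by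
      refine mem_normalizer_of_smul u.2.2.2 ?_
      rw [hn1, hn2, hyz]
    refine ⟨n • u.1.1, ⟨u, hu, n, hn, by rw [hn1, hn2]⟩, ?_⟩
    rintro x ⟨u', hu', n', hn', h⟩
    simp only [Prod.mk.injEq] at h
    obtain ⟨h2, h3, h4⟩ := h
    have h5 : u' = u := by
      apply huniq
      refine ⟨hu', Subtype.ext ?_⟩
      change orbital G u'.1.2.1 u'.1.2.2 = orbital G y z
      rw [h3, h4, orbital_smul]
    subst h5
    rw [h2]
    have hmem : n⁻¹ * n' ∈ stab₂ G u'.1.1 u'.1.2.1 := by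
      rw [u'.2.1, ← u'.2.2.2, mem_stab₂, mul_smul, mul_smul, ← h3, ← h4, ← hn1, ← hn2,
        inv_smul_smul, inv_smul_smul]
      exact ⟨rfl, rfl⟩
    have := (mem_stab₂.1 hmem).1
    rw [mul_smul, inv_smul_eq_iff] at this
    exact this

/-- **The infinite local problem.** -/
theorem exists_isLocalLatin_of_large
    (hsub : ∀ x y : Ω, (MulAction.orbit (MulAction.stabilizer G x) y).Finite)
    (K : Subgroup G) [Infinite (NQ K)] (hF : #(fixSet K Ω) ≤ #(NQ K))
    (htri : ∀ a b : Ω, stab₂ G a b = K → ∃ c, stab₂ G a c = K ∧ stab₂ G b c = K) :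
    ∃ L : Set (Ω × Ω × Ω), IsLocalLatin G K L := by
  classical
  by_cases hne : ∃ a b : Ω, stab₂ G a b = K
  swap
  · push Not at hne
    refine ⟨∅, ?_, ?_, ?_, ?_, ?_⟩
    · intro x y z h; exact h.elim
    · intro n _ x y z h; exact h.elim
    · intro x y hxy; exact absurd hxy (hne x y)
    · intro x y hxy; exact absurd hxy (hne x y)
    · intro x y hxy; exact absurd hxy (hne x y)
  have hQ : ℵ₀ ≤ #(NQ K) := aleph0_le_mk _
  have hcount : ∀ a b : Ω, stab₂ G a b = K →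
      #(NQ K) ≤ #{c : Ω | stab₂ G a c = K ∧ stab₂ G b c = K} := by
    intro a b hab
    obtain ⟨c₀, h1, h2⟩ := htri a b hab
    exact count hsub h1 h2
  -- the number of orbitals is infinite
  have hXinf : ℵ₀ ≤ #(XK K Ω) := by
    by_contra hcon
    push Not at hcon
    have hfin : (XK K Ω).Finite := lt_aleph0_iff_set_finite.1 hcon
    obtain ⟨a, b, hab⟩ := hne
    have h1 : {c : Ω | stab₂ G a c = K ∧ stab₂ G b c = K} ⊆
        (fun c => orbital G a c) ⁻¹' (XK K Ω) := fun c hc => ⟨a, c, hc.1, rfl⟩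
    have h2 : ((fun c => orbital G a c) ⁻¹' (XK K Ω)).Finite :=
      hfin.preimage' fun o _ => finite_fiber_left hsub a o
    have h3 := lt_aleph0_iff_set_finite.2 (h2.subset h1)
    exact absurd (hQ.trans (hcount a b hab)) (not_le.2 h3)
  have hXle : #(XK K Ω) ≤ #(NQ K) := by
    have h1 : XK K Ω ⊆ Set.range (fun p : fixSet K Ω × fixSet K Ω =>
        orbital G p.1.1 p.2.1) := by
      rintro _ ⟨x, y, hxy, rfl⟩
      exact ⟨(⟨x, (mem_fixSet_of_stab hxy).1⟩, ⟨y, (mem_fixSet_of_stab hxy).2⟩), rfl⟩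
    calc #(XK K Ω) ≤ #(Set.range (fun p : fixSet K Ω × fixSet K Ω => orbital G p.1.1 p.2.1)) :=
          mk_le_mk_of_subset h1
      _ ≤ #(fixSet K Ω × fixSet K Ω) := mk_range_le
      _ = #(fixSet K Ω) * #(fixSet K Ω) := (mul_def _ _).symm
      _ ≤ #(NQ K) * #(NQ K) := mul_le_mul' hF hF
      _ = #(NQ K) := mul_eq_self hQ
  have hXI : Infinite (XK K Ω) := infinite_iff.2 hXinf
  obtain ⟨M, hM⟩ := exists_matching (prK K (Ω := Ω)) (by
    intro p x U hU
    obtain ⟨o, a, b, hab, rfl⟩ := x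
    have hU' : #((Subtype.val '' U : Set (MulAction.orbitRel.Quotient G (Ω × Ω)))) <
        #(XK K Ω) := mk_image_le.trans_lt hU
    have hnot : ∀ w : XK K Ω, w.1 ∉ (Subtype.val '' U : Set _) → w ∉ U :=
      fun w hw hwU => hw ⟨w, hwU, rfl⟩
    have hC := hXle.trans (hcount a b hab)
    fin_cases p
    · obtain ⟨c, hc, h1, h2⟩ := exists_avoid (fun c => orbital G a c) (fun c => orbital G b c)
        (finite_fiber_left hsub a) (finite_fiber_left hsub b) _ _ hXinf hU' hC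
      refine ⟨⟨(a, b, c), hab, hc.1, hc.2⟩, rfl, ?_⟩
      intro q hq
      fin_cases q
      · exact absurd rfl hq
      · exact hnot _ h1
      · exact hnot _ h2
    · obtain ⟨c, hc, h1, h2⟩ := exists_avoid (fun c => orbital G a c) (fun c => orbital G c b)
        (finite_fiber_left hsub a) (finite_fiber_right hsub b) _ _ hXinf hU' hC
      refine ⟨⟨(a, c, b), hc.1, hab, (stab₂_comm _ _).trans hc.2⟩, rfl, ?_⟩
      intro q hq
      fin_cases q
      · exact hnot _ h1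
      · exact absurd rfl hq
      · exact hnot _ h2
    · obtain ⟨c, hc, h1, h2⟩ := exists_avoid (fun c => orbital G c a) (fun c => orbital G c b)
        (finite_fiber_right hsub a) (finite_fiber_right hsub b) _ _ hXinf hU' hC
      refine ⟨⟨(c, a, b), (stab₂_comm _ _).trans hc.1, (stab₂_comm _ _).trans hc.2, hab⟩,
        rfl, ?_⟩
      intro q hq
      fin_cases q
      · exact hnot _ h1
      · exact hnot _ h2
      · exact absurd rfl hq)
  exact ⟨_, isLocalLatin_of_matching K M hM⟩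

end Pool.Agent.Lib.MP_a0202c_co
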